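import Mathlib

/-! The first contact of the convex hull of a moving compact set with the origin. -/

set_option autoImplicit false

open Set Filter Topology Metric Function
open scoped RealInnerProductSpace

noncomputable section

namespace Pool.Agent.H91.HS

/-- The points of the family are in an open half space. -/
def Good {d : ℕ} {K : Type} (S : ℝ → K → EuclideanSpace ℝ (Fin d)) (t : ℝ) : Prop :=
  ∃ v : EuclideanSpace ℝ (Fin d), ∀ h : K, 0 < ⟪S t h, v⟫

/-- Caratheodory's theorem in a linear subspace. -/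
theorem carath {d m : ℕ} (P : Submodule ℝ (EuclideanSpace ℝ (Fin d)))
    (hP : Module.finrank ℝ P ≤ m) {s : Set (EuclideanSpace ℝ (Fin d))} (hs : s ⊆ P)
    {q : EuclideanSpace ℝ (Fin d)} (hq : q ∈ convexHull ℝ s) :
    ∃ (z : Fin (m + 1) → EuclideanSpace ℝ (Fin d)) (w : Fin (m + 1) → ℝ), (∀ j, z j ∈ s) ∧
      (∀ j, 0 ≤ w j) ∧ ∑ j, w j = 1 ∧ ∑ j, w j • z j = q := by
  classical
  obtain ⟨ι, _, z, w, hz, hai, hw, hw1, hwz⟩ := eq_pos_convex_span_of_mem_convexHull hq
  have hcard : Fintype.card ι ≤ m + 1 := by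
    have e1 := hai.card_le_finrank_succ
    have e2 : vectorSpan ℝ (range z) ≤ P := by
      rw [vectorSpan_def, Submodule.span_le]
      rintro _ ⟨a, ha, b, hb, rfl⟩
      exact P.sub_mem (hs (hz ha)) (hs (hz hb))
    have e5 := Submodule.finrank_mono e2
    omega
  obtain ⟨e⟩ : Nonempty (ι ↪ Fin (m + 1)) :=
    Function.Embedding.nonempty_of_card_le (by simpa using hcard)
  have hne : Nonempty ι := by
    by_contra hemp
    rw [not_nonempty_iff] at hemp
    rw [Fintype.sum_empty] at hw1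
    exact zero_ne_one hw1
  obtain ⟨i0⟩ := hne
  refine ⟨Function.extend e z (fun _ => z i0), Function.extend e w 0, ?_, ?_, ?_, ?_⟩
  · intro j
    by_cases hj : ∃ i, e i = j
    · obtain ⟨i, rfl⟩ := hj
      rw [e.injective.extend_apply]
      exact hz (mem_range_self i)
    · rw [Function.extend_apply' _ _ _ hj]
      exact hz (mem_range_self i0)
  · intro j
    by_cases hj : ∃ i, e i = j
    · obtain ⟨i, rfl⟩ := hj
      rw [e.injective.extend_apply]
      exact (hw i).le
    · rw [Function.extend_apply' _ _ _ hj]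
      exact le_rfl
  · rw [← hw1]
    symm
    refine Fintype.sum_of_injective e e.injective w _ ?_ ?_
    · intro j hj
      have hj' : ¬ ∃ i, e i = j := hj
      rw [Function.extend_apply' _ _ _ hj']
      rfl
    · intro i
      rw [e.injective.extend_apply]
  · rw [← hwz]
    symm
    refine Fintype.sum_of_injective e e.injective (fun i => w i • z i) _ ?_ ?_
    · intro j hj
      have hj' : ¬ ∃ i, e i = j := hj
      rw [Function.extend_apply' w _ _ hj']
      simp
    · intro i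
      rw [e.injective.extend_apply, e.injective.extend_apply]

/-- The convex hull of a compact set of `EuclideanSpace` is closed. -/
theorem closed_hull {d : ℕ} {K : Type} [TopologicalSpace K] [CompactSpace K]
    (S : K → EuclideanSpace ℝ (Fin d)) (hS : Continuous S) :
    IsClosed (convexHull ℝ (range S)) := by
  have e : convexHull ℝ (range S) =
      (fun q : (Fin (d + 1) → K) × (Fin (d + 1) → ℝ) => ∑ j, q.2 j • S (q.1 j)) ''
        (univ ×ˢ stdSimplex ℝ (Fin (d + 1))) := by
    apply Subset.antisymm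
    · intro q hq
      obtain ⟨z, w, hz, hw, hw1, hwz⟩ := carath (m := d) ⊤ (by
        rw [finrank_top, finrank_euclideanSpace_fin]) (fun _ _ => Submodule.mem_top) hq
      choose k hk using hz
      refine ⟨(k, w), ⟨mem_univ _, hw, hw1⟩, ?_⟩
      simp only [hk]
      exact hwz
    · rintro _ ⟨⟨k, w⟩, ⟨-, hw⟩, rfl⟩
      exact (convex_convexHull ℝ _).sum_mem (fun i _ => hw.1 i) hw.2 fun i _ =>
        subset_convexHull ℝ _ (mem_range_self _)
  rw [e]
  refine IsCompact.isClosed (IsCompact.image_of_continuousOn (isCompact_univ.prod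
    (isCompact_stdSimplex ℝ _)) (Continuous.continuousOn ?_))
  refine continuous_finset_sum _ fun j _ => ?_
  exact ((continuous_apply j).comp continuous_snd).smul
    (hS.comp ((continuous_apply j).comp continuous_fst))

/-- A compact set which is in no open half space and in a closed one: the origin is a convex
combination of `d` of its points. -/
theorem touch {d : ℕ} (hd : 1 ≤ d) {K : Type} [TopologicalSpace K] [CompactSpace K]
    (S : K → EuclideanSpace ℝ (Fin d)) (hS : Continuous S)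
    (hno : ¬ ∃ v : EuclideanSpace ℝ (Fin d), ∀ h : K, 0 < ⟪S h, v⟫)
    (v : EuclideanSpace ℝ (Fin d)) (hv : v ≠ 0) (hle : ∀ h : K, 0 ≤ ⟪S h, v⟫) :
    ∃ (h : Fin d → K) (w : Fin d → ℝ), (∀ j, 0 ≤ w j) ∧ ∑ j, w j = 1 ∧ ∑ j, w j • S (h j) = 0 := by
  classical
  -- the origin is in the convex hull
  have h0 : (0 : EuclideanSpace ℝ (Fin d)) ∈ convexHull ℝ (range S) := by
    by_contra hcon
    obtain ⟨f, u, hu1, hu2⟩ := geometric_hahn_banach_point_closed (convex_convexHull ℝ (range S))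
      (closed_hull S hS) hcon
    apply hno
    refine ⟨(InnerProductSpace.toDual ℝ (EuclideanSpace ℝ (Fin d))).symm f, fun h => ?_⟩
    rw [real_inner_comm, InnerProductSpace.toDual_symm_apply]
    have e1 := hu2 (S h) (subset_convexHull ℝ _ (mem_range_self h))
    rw [map_zero] at hu1
    linarith
  -- in the convex hull of the points on the boundary of the half space
  have h1 : (0 : EuclideanSpace ℝ (Fin d)) ∈ convexHull ℝ {q | q ∈ range S ∧ ⟪q, v⟫ = 0} := by
    obtain ⟨ι, _, z, w, hz, -, hw, hw1, hwz⟩ := eq_pos_convex_span_of_mem_convexHull h0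
    have e1 : ∑ i, w i * ⟪z i, v⟫ = 0 := by
      have : ⟪∑ i, w i • z i, v⟫ = 0 := by rw [hwz, inner_zero_left]
      rw [sum_inner] at this
      simpa [inner_smul_left] using this
    have e2 : ∀ i, 0 ≤ w i * ⟪z i, v⟫ := by
      intro i
      obtain ⟨h, hh⟩ := hz (mem_range_self i)
      rw [← hh]
      exact mul_nonneg (hw i).le (hle h)
    have e3 : ∀ i, ⟪z i, v⟫ = 0 := by
      intro i
      have := (Finset.sum_eq_zero_iff_of_nonneg (fun i _ => e2 i)).1 e1 i (Finset.mem_univ i)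
      rcases mul_eq_zero.1 this with h | h
      · exact absurd h (hw i).ne'
      · exact h
    rw [← hwz]
    exact (convex_convexHull ℝ _).sum_mem (fun i _ => (hw i).le) hw1 fun i _ =>
      subset_convexHull ℝ _ ⟨hz (mem_range_self i), e3 i⟩
  have hrank : Module.finrank ℝ ((ℝ ∙ v)ᗮ : Submodule ℝ (EuclideanSpace ℝ (Fin d))) ≤ d - 1 := by
    have e4 := Submodule.finrank_add_finrank_orthogonal (ℝ ∙ v)
    rw [finrank_span_singleton hv, finrank_euclideanSpace_fin] at e4
    omega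
  obtain ⟨z, w, hz, hw, hw1, hwz⟩ := carath (m := d - 1) (ℝ ∙ v)ᗮ hrank (by
    rintro q ⟨-, hq⟩
    rw [SetLike.mem_coe, Submodule.mem_orthogonal_singleton_iff_inner_left]
    exact hq) h1
  obtain ⟨d', rfl⟩ : ∃ d', d = d' + 1 := ⟨d - 1, by omega⟩
  choose k hk using fun j => (hz j).1
  refine ⟨k, w, hw, hw1, ?_⟩
  simp only [hk]
  exact hwz

/-- **First contact.** -/
theorem contact {d : ℕ} (hd : 1 ≤ d) {K : Type} [TopologicalSpace K] [CompactSpace K]
    (S : ℝ → K → EuclideanSpace ℝ (Fin d)) (T : ℝ) (hT : 0 ≤ T)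
    (hS : ContinuousOn (fun q : ℝ × K => S q.1 q.2) (Icc 0 T ×ˢ univ))
    (h0 : ¬ Good S 0) (h1 : Good S T) :
    ∃ t ∈ Icc 0 T, ∃ (h : Fin d → K) (w : Fin d → ℝ), (∀ j, 0 ≤ w j) ∧ ∑ j, w j = 1 ∧
      ∑ j, w j • S t (h j) = 0 := by
  classical
  have hSt : ∀ t ∈ Icc 0 T, Continuous (S t) := by
    intro t ht
    rw [← continuousOn_univ]
    exact hS.comp (f := fun h : K => (t, h)) (by fun_prop) fun h _ => ⟨ht, mem_univ _⟩
  have hSh : ∀ h : K, ContinuousOn (fun t => S t h) (Icc 0 T) := by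
    intro h
    exact hS.comp (f := fun t : ℝ => (t, h)) (by fun_prop) fun t ht => ⟨ht, mem_univ _⟩
  -- openness
  have hopen : ∀ t ∈ Icc 0 T, Good S t → ∀ᶠ s in 𝓝[Icc 0 T] t, Good S s := by
    rintro t ht ⟨v, hv⟩
    have e1 : ∀ᶠ s in 𝓝 t, ∀ h ∈ (univ : Set K), s ∈ Icc 0 T → 0 < ⟪S s h, v⟫ := by
      apply isCompact_univ.eventually_forall_of_forall_eventually
      intro h _
      have e2 : ContinuousWithinAt (fun q : ℝ × K => ⟪S q.1 q.2, v⟫) (Icc 0 T ×ˢ univ) (t, h) :=
        (hS (t, h) ⟨ht, mem_univ _⟩).inner continuousWithinAt_const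
      have e3 := e2.eventually_mem (Ioi_mem_nhds (hv h))
      rw [eventually_nhdsWithin_iff] at e3
      filter_upwards [e3] with q hq hqI
      exact hq ⟨hqI, mem_univ _⟩
    rw [eventually_nhdsWithin_iff]
    filter_upwards [e1] with s hs hsI
    exact ⟨v, fun h => hs h (mem_univ _) hsI⟩
  set A : Set ℝ := {t | t ∈ Icc 0 T ∧ ¬ Good S t} with hA
  have hAne : A.Nonempty := ⟨0, ⟨le_rfl, hT⟩, h0⟩
  have hAb : BddAbove A := ⟨T, fun t ht => ht.1.2⟩
  set τ := sSup A with hτ
  have hτI : τ ∈ Icc 0 T := ⟨le_csSup hAb ⟨⟨le_rfl, hT⟩, h0⟩, csSup_le hAne fun t ht => ht.1.2⟩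
  have hτbad : ¬ Good S τ := by
    intro hg
    have e1 := hopen τ hτI hg
    have e2 : τ ∈ closure A := csSup_mem_closure hAne hAb
    rw [mem_closure_iff_nhdsWithin_neBot] at e2
    have e3 : ∀ᶠ s in 𝓝[A] τ, Good S s := e1.filter_mono (nhdsWithin_mono _ fun s hs => hs.1)
    obtain ⟨s, hs1, hs2⟩ := (e3.and self_mem_nhdsWithin).exists
    exact hs2.2 hs1
  have hτT : τ < T := by
    rcases hτI.2.lt_or_eq with h | h
    · exact h
    · exact absurd (h ▸ h1) hτbad
  have hgood : ∀ s ∈ Ioc τ T, Good S s := by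
    intro s hs
    by_contra hcon
    exact absurd (le_csSup hAb (show s ∈ A from ⟨⟨hτI.1.trans hs.1.le, hs.2⟩, hcon⟩))
      (not_le.2 hs.1)
  rcases isEmpty_or_nonempty K with hK | hK
  · exact absurd ⟨0, fun h => (hK.false h).elim⟩ hτbad
  obtain ⟨k0⟩ := hK
  -- unit normals
  have hunit : ∀ s ∈ Ioc τ T, ∃ v ∈ sphere (0 : EuclideanSpace ℝ (Fin d)) 1,
      ∀ h : K, 0 < ⟪S s h, v⟫ := by
    intro s hs
    obtain ⟨v, hv⟩ := hgood s hs
    have hv0 : v ≠ 0 := by
      rintro rfl
      have := hv k0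
      rw [inner_zero_right] at this
      exact lt_irrefl _ this
    have hn : 0 < ‖v‖ := norm_pos_iff.2 hv0
    refine ⟨‖v‖⁻¹ • v, ?_, fun h => ?_⟩
    · rw [mem_sphere_zero_iff_norm, norm_smul, norm_inv, norm_norm, inv_mul_cancel₀ hn.ne']
    · rw [real_inner_smul_right]
      exact mul_pos (inv_pos.2 hn) (hv h)
  obtain ⟨s, hs1, hs2, hs3⟩ : ∃ s : ℕ → ℝ, (∀ m, s m ∈ Ioc τ T) ∧ Tendsto s atTop (𝓝 τ) ∧
      True := by
    refine ⟨fun m => τ + (T - τ) * (1 / ((m : ℝ) + 1)), fun m => ?_, ?_, trivial⟩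
    · have e1 : 0 < 1 / ((m : ℝ) + 1) := by positivity
      have e2 : 1 / ((m : ℝ) + 1) ≤ 1 := by
        rw [div_le_one (by positivity)]
        have : (0 : ℝ) ≤ m := Nat.cast_nonneg m
        linarith
      constructor
      · have := mul_pos (sub_pos.2 hτT) e1
        linarith
      · have := mul_le_mul_of_nonneg_left e2 (sub_pos.2 hτT).le
        linarith
    · have e1 : Tendsto (fun m : ℕ => 1 / ((m : ℝ) + 1)) atTop (𝓝 0) :=
        tendsto_one_div_add_atTop_nhds_zero_nat
      have e2 := (e1.const_mul (T - τ)).const_add τ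
      simpa using e2
  choose v hv1 hv2 using fun m => hunit (s m) (hs1 m)
  obtain ⟨v', hv', ψ, hψ, hlim⟩ := (isCompact_sphere (0 : EuclideanSpace ℝ (Fin d)) 1).tendsto_subseq hv1
  refine ⟨τ, hτI, ?_⟩
  refine touch hd (S τ) (hSt τ hτI) hτbad v' ?_ ?_
  · rintro rfl
    simp at hv'
  · intro h
    have e1 : Tendsto (fun m => S (s (ψ m)) h) atTop (𝓝 (S τ h)) := by
      have e2 := hSh h τ hτI
      have e3 : Tendsto (fun m => s (ψ m)) atTop (𝓝[Icc 0 T] τ) := by
        refine tendsto_nhdsWithin_iff.2 ⟨hs2.comp hψ.tendsto_atTop, Eventually.of_forall fun m => ?_⟩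
        exact ⟨hτI.1.trans (hs1 _).1.le, (hs1 _).2⟩
      exact e2.tendsto.comp e3
    have e2 : Tendsto (fun m => ⟪S (s (ψ m)) h, v (ψ m)⟫) atTop (𝓝 ⟪S τ h, v'⟫) := e1.inner hlim
    exact ge_of_tendsto e2 (Eventually.of_forall fun m => (hv2 (ψ m) h).le)

end Pool.Agent.H91.HS
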