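import Pool.Agent.H91.HS.Local
import Pool.Graph.R_pool_sql_team_seeded_64922ed1.X169.HT.Glob

/-! From the local theorem to Lie groups. -/

set_option autoImplicit false

open Set Filter Topology Metric Function MeasureTheory
open scoped RealInnerProductSpace

noncomputable section

namespace Pool.Agent.H91.HS

variable {r : ℕ} {d : Fin r → ℕ}

/-- Convex combinations of the maps are injective in the `i`-th block. -/
def ConvInj {X G : Type} [SMul G X] (φ : X → ∀ i, EuclideanSpace ℝ (Fin (d i))) (V : Set G)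
    (W : Set X) (i : Fin r) : Prop :=
  ∀ y ∈ W, ∀ z ∈ W, (∀ j < i, φ y j = φ z j) → φ y i ≠ φ z i →
    ∀ (g : Fin (d i) → G) (t : Fin (d i) → ℝ),
      (∀ k, g k ∈ V ∧ g k • y ∈ W ∧ g k • z ∈ W ∧ 0 ≤ t k) → ∑ k, t k = 1 →
        ∑ k, t k • φ (g k • y) i ≠ ∑ k, t k • φ (g k • z) i

/-- The maps turn the differences in the `i`-th block by bounded angles. -/
def Turns {X G : Type} [SMul G X] (φ : X → ∀ i, EuclideanSpace ℝ (Fin (d i))) (V : Set G)
    (W : Set X) (i : Fin r) : Prop :=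
  2 ≤ d i ∧ ∀ g ∈ V, ∀ y ∈ W, ∀ z ∈ W, g • y ∈ W → g • z ∈ W → (∀ j < i, φ y j = φ z j) →
    φ y i ≠ φ z i →
      -(1 / ((d i : ℝ) - 1)) * (‖φ (g • y) i - φ (g • z) i‖ * ‖φ y i - φ z i‖) <
        ⟪φ (g • y) i - φ (g • z) i, φ y i - φ z i⟫

/-- The maps respect the flag. -/
def Flag {X G : Type} [SMul G X] (φ : X → ∀ i, EuclideanSpace ℝ (Fin (d i))) (V : Set G)
    (W : Set X) : Prop :=
  ∀ g ∈ V, ∀ y ∈ W, ∀ z ∈ W, g • y ∈ W → g • z ∈ W → ∀ i, (∀ j ≤ i, φ y j = φ z j) →
    φ (g • y) i = φ (g • z) i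

/-- The local condition. -/
def Tame {X : Type} [TopologicalSpace X] {G : Type} [SMul G X] (V : Set G) (x : X) : Prop :=
  ∃ (r : ℕ) (d : Fin r → ℕ)
    (φ : OpenPartialHomeomorph X (∀ i, EuclideanSpace ℝ (Fin (d i)))),
    ∃ W ∈ 𝓝 x, W ⊆ φ.source ∧ Flag (fun y => φ y) V W ∧
      ∀ i, d i = 1 ∨ ConvInj (fun y => φ y) V W i ∨ Turns (fun y => φ y) V W i

/-- the local theorem for profinite groups -/
theorem local_of_tame {X : Type} [TopologicalSpace X] {G : Type} [Group G]
    [TopologicalSpace G] [MulAction G X] {S : Type} [Group S] [TopologicalSpace S]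
    [IsTopologicalGroup S] [CompactSpace S] [T2Space S] [TotallyDisconnectedSpace S]
    [MulAction S X] [ContinuousSMul S X] (i : S →* G) (hi : Continuous i)
    (his : ∀ (s : S) (x : X), s • x = i s • x) (V : Set G) (hV : V ∈ 𝓝 (1 : G)) (x : X)
    (h : Tame V x) :
    ∃ K : Subgroup S, IsOpen (K : Set S) ∧ ∀ᶠ y in 𝓝 x, ∀ k ∈ K, k • y = y := by
  obtain ⟨r, d, φ, W, hW, hWs, hflag, hblock⟩ := h
  have hx : x ∈ φ.source := hWs (mem_of_mem_nhds hW)
  have hzt : φ x ∈ φ.target := φ.map_source hx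
  -- the open set
  obtain ⟨W', hW'W, hW'o, hxW'⟩ := mem_nhds_iff.1 hW
  have e1 : ∀ᶠ y in 𝓝 (φ x), y ∈ φ.target ∧ φ.symm y ∈ W' := by
    have h1 : ∀ᶠ y in 𝓝 (φ x), y ∈ φ.target := φ.open_target.mem_nhds hzt
    have h2 : ∀ᶠ y in 𝓝 (φ x), φ.symm y ∈ W' := by
      refine (φ.continuousAt_symm hzt).eventually_mem ?_
      rw [φ.left_inv hx]
      exact hW'o.mem_nhds hxW'
    exact h1.and h2
  obtain ⟨A, hA, hAh⟩ := Metric.nhds_basis_closedBall.eventually_iff.1 e1
  obtain ⟨ρ, hρ, hρA⟩ : ∃ ρ : ℝ, 0 < ρ ∧ 3 * ρ = A := ⟨A / 3, by positivity, by ring⟩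
  rw [← hρA] at hAh
  -- the small subgroup
  have e2 : ∀ᶠ s : S in 𝓝 1, ∀ p ∈ closedBall (φ x) (3 * ρ), s • φ.symm p ∈ W' ∧
      dist (φ (s • φ.symm p)) p < ρ / 4 := by
    apply (isCompact_closedBall (φ x) (3 * ρ)).eventually_forall_of_forall_eventually
    intro p hp
    obtain ⟨hpt, hpW⟩ := hAh hp
    have c1 : ContinuousAt (fun q : S × (∀ i, EuclideanSpace ℝ (Fin (d i))) => φ.symm q.2)
        (1, p) :=
      ContinuousAt.comp (f := Prod.snd) (x := ((1 : S), p)) (φ.continuousAt_symm hpt)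
        continuousAt_snd
    have c2 : ContinuousAt (fun q : S × (∀ i, EuclideanSpace ℝ (Fin (d i))) => q.1 • φ.symm q.2)
        (1, p) := continuousAt_fst.smul c1
    have c3 : ContinuousAt (fun q : S × (∀ i, EuclideanSpace ℝ (Fin (d i))) =>
        φ (q.1 • φ.symm q.2)) (1, p) := by
      refine ContinuousAt.comp (g := φ) ?_ c2
      simp only [one_smul]
      exact φ.continuousAt (hWs (hW'W hpW))
    have c4 : ContinuousAt (fun q : S × (∀ i, EuclideanSpace ℝ (Fin (d i))) =>
        dist (φ (q.1 • φ.symm q.2)) q.2) (1, p) := c3.dist continuousAt_snd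
    refine (c2.eventually_mem ?_).and (c4.eventually_lt_const ?_)
    · simp only [one_smul]
      exact hW'o.mem_nhds hpW
    · simp only [one_smul]
      rw [φ.right_inv hpt, dist_self]
      positivity
  have e3 : ∀ᶠ s : S in 𝓝 1, i s ∈ V := by
    have h2 := hi.tendsto 1
    rw [map_one] at h2
    exact h2.eventually hV
  obtain ⟨O, hO1, hOo, h1O⟩ := eventually_nhds_iff.1 (e2.and e3)
  obtain ⟨N, hN⟩ := ProfiniteGrp.exist_openNormalSubgroup_sub_open_nhds_of_one hOo h1O
  have hNo : IsOpen (N.toSubgroup : Set S) := N.isOpen'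
  have hNc : IsCompact (N.toSubgroup : Set S) :=
    (Subgroup.isClosed_of_isOpen N.toSubgroup N.isOpen').isCompact
  have : CompactSpace N.toSubgroup := isCompact_iff_compactSpace.1 hNc
  have hNO : ∀ k : N.toSubgroup, (k : S) ∈ O := fun k => hN k.2
  have hNW : ∀ (k : N.toSubgroup), ∀ p ∈ closedBall (φ x) (3 * ρ), (k : S) • φ.symm p ∈ W' :=
    fun k p hp => ((hO1 _ (hNO k)).1 p hp).1
  have key := loc (r := r) (d := d) (K := N.toSubgroup)
    (fun k p => φ ((k : S) • φ.symm p)) (φ x) ρ hρ ?_ ?_ ?_ ?_ ?_ ?_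
  · refine ⟨N.toSubgroup, N.isOpen', ?_⟩
    have e4 : ∀ᶠ y in 𝓝 x, φ y ∈ closedBall (φ x) ρ :=
      (φ.continuousAt hx).eventually_mem (closedBall_mem_nhds _ hρ)
    have e5 : ∀ᶠ y in 𝓝 x, y ∈ φ.source := φ.open_source.mem_nhds hx
    filter_upwards [e4, e5] with y hy hys k hk
    have h1 := key (φ y) hy ⟨k, hk⟩
    have h2 : φ y ∈ closedBall (φ x) (3 * ρ) := closedBall_subset_closedBall (by linarith) hy
    have h3 := hNW ⟨k, hk⟩ (φ y) h2
    simp only [φ.left_inv hys] at h1 h3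
    exact φ.injOn (hWs (hW'W h3)) hys h1
  · -- continuity
    intro q hq
    obtain ⟨hpt, hpW⟩ := hAh hq.2
    have c1 : ContinuousAt (fun q : N.toSubgroup × (∀ i, EuclideanSpace ℝ (Fin (d i))) =>
        φ.symm q.2) q :=
      ContinuousAt.comp (f := Prod.snd) (x := q) (φ.continuousAt_symm hpt) continuousAt_snd
    have c0 : ContinuousAt (fun q : N.toSubgroup × (∀ i, EuclideanSpace ℝ (Fin (d i))) =>
        (q.1 : S)) q := by fun_prop
    have c2 : ContinuousAt (fun q : N.toSubgroup × (∀ i, EuclideanSpace ℝ (Fin (d i))) =>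
        (q.1 : S) • φ.symm q.2) q := c0.smul c1
    have c3 : ContinuousAt (fun q : N.toSubgroup × (∀ i, EuclideanSpace ℝ (Fin (d i))) =>
        φ ((q.1 : S) • φ.symm q.2)) q :=
      ContinuousAt.comp (g := φ) (φ.continuousAt (hWs (hW'W (hNW q.1 q.2 hq.2)))) c2
    exact c3.continuousWithinAt
  · intro p hp
    simp only [OneMemClass.coe_one, one_smul]
    exact φ.right_inv (hAh hp).1
  · intro h k p hp
    simp only [Subgroup.coe_mul, mul_smul]
    rw [φ.left_inv (hWs (hW'W (hNW k p hp)))]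
  · intro k p hp
    exact ((hO1 _ (hNO k)).1 p hp).2.le
  · intro k p hp q hq j hj
    have h1 := hflag (i k) (hO1 _ (hNO k)).2 (φ.symm p) (hW'W (hAh hp).2) (φ.symm q)
      (hW'W (hAh hq).2) (by rw [← his]; exact hW'W (hNW k p hp))
      (by rw [← his]; exact hW'W (hNW k q hq)) j (by
        intro l hl
        simp only [φ.right_inv (hAh hp).1, φ.right_inv (hAh hq).1]
        exact hj l hl)
    simp only [← his] at h1
    exact h1
  · intro j
    rcases hblock j with h1 | h1 | ⟨h0, h1⟩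
    · exact Or.inl h1
    · refine Or.inr (Or.inl ?_)
      intro p hp q hq hpq hne g t ht ht1 hcon
      refine h1 (φ.symm p) (hW'W (hAh hp).2) (φ.symm q) (hW'W (hAh hq).2) ?_ ?_
        (fun k => i (g k)) t ?_ ht1 ?_
      · intro l hl
        simp only [φ.right_inv (hAh hp).1, φ.right_inv (hAh hq).1]
        exact hpq l hl
      · simp only [φ.right_inv (hAh hp).1, φ.right_inv (hAh hq).1]
        exact hne
      · intro k
        refine ⟨(hO1 _ (hNO (g k))).2, ?_, ?_, ht k⟩
        · rw [← his]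
          exact hW'W (hNW (g k) p hp)
        · rw [← his]
          exact hW'W (hNW (g k) q hq)
      · simp only [← his]
        rw [← sub_eq_zero, ← Finset.sum_sub_distrib]
        simpa only [smul_sub] using hcon
    · refine Or.inr (Or.inr ⟨h0, ?_⟩)
      intro p hp q hq hpq hne k
      have h2 := h1 (i k) (hO1 _ (hNO k)).2 (φ.symm p) (hW'W (hAh hp).2) (φ.symm q)
        (hW'W (hAh hq).2) (by rw [← his]; exact hW'W (hNW k p hp))
        (by rw [← his]; exact hW'W (hNW k q hq)) (by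
          intro l hl
          simp only [φ.right_inv (hAh hp).1, φ.right_inv (hAh hq).1]
          exact hpq l hl) (by
          simp only [φ.right_inv (hAh hp).1, φ.right_inv (hAh hq).1]
          exact hne)
      simp only [← his, φ.right_inv (hAh hp).1, φ.right_inv (hAh hq).1] at h2
      exact h2

open Pool.Agent.W660.GY (NSS)

/-- Charts with values in one Euclidean space. -/
theorem chart_one {X : Type} [TopologicalSpace X] (x : X) {r : ℕ} {d : Fin r → ℕ}
    (φ : OpenPartialHomeomorph X (∀ i, EuclideanSpace ℝ (Fin (d i)))) (hx : x ∈ φ.source) :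
    ∃ (n : ℕ) (ψ : OpenPartialHomeomorph X (EuclideanSpace ℝ (Fin n))), x ∈ ψ.source := by
  let n := Module.finrank ℝ (∀ i, EuclideanSpace ℝ (Fin (d i)))
  have e : (∀ i, EuclideanSpace ℝ (Fin (d i))) ≃L[ℝ] EuclideanSpace ℝ (Fin n) :=
    ContinuousLinearEquiv.ofFinrankEq (by rw [finrank_euclideanSpace_fin])
  exact ⟨n, φ.transHomeomorph e.toHomeomorph, hx⟩

/-- No small subgroups. -/
theorem nss_main {X : Type} [TopologicalSpace X] [T2Space X]
    {G : Type} [Group G] [TopologicalSpace G] [IsTopologicalGroup G] [LocallyCompactSpace G]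
    [MulAction G X] [ContinuousSMul G X] [FaithfulSMul G X]
    (R : Set X) (hdense : Dense R) (hconn : IsPreconnected R)
    (hR : ∀ x ∈ R, ∃ V ∈ 𝓝 (1 : G), Tame V x) : T2Space G ∧ NSS G := by
  have hT2 : T2Space G := by
    refine ⟨fun g h hgh => ?_⟩
    obtain ⟨x, hx⟩ : ∃ x : X, g • x ≠ h • x := by
      by_contra hall
      push Not at hall
      exact hgh (eq_of_smul_eq_smul hall)
    obtain ⟨u, v, hu, hv, hgu, hhv, huv⟩ := t2_separation hx
    have hc : Continuous (fun g : G => g • x) := by fun_prop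
    exact ⟨_, _, hu.preimage hc, hv.preimage hc, hgu, hhv, huv.preimage _⟩
  refine ⟨hT2, Pool.Agent.Y485.HS.nss_of_Z univ univ_mem ?_⟩
  intro S _ _ _ _ _ _ i hi hinj _
  let _ : MulAction S X := MulAction.compHom X i
  have _ : ContinuousSMul S X := ⟨by
    have h : Continuous (fun q : S × X => i q.1 • q.2) := by fun_prop
    exact h⟩
  obtain ⟨K, hKo, hKt⟩ := Pool.Agent.X169.HT.globalize (H := S) (X := X) R hdense hconn
    (fun x hx => by
      obtain ⟨V, hV, r, d, φ, W, hW, hWs, -⟩ := hR x hx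
      exact chart_one x φ (hWs (mem_of_mem_nhds hW)))
    (fun x hx => by
      obtain ⟨V, hV, h⟩ := hR x hx
      exact local_of_tame i hi (fun s x => rfl) V hV x h)
  have hbot : K = ⊥ := by
    rw [eq_bot_iff]
    intro k hk
    rw [Subgroup.mem_bot]
    apply hinj
    refine eq_of_smul_eq_smul (α := X) fun x => ?_
    rw [map_one, one_smul]
    exact hKt k hk x
  rw [hbot] at hKo
  refine discreteTopology_of_isOpen_singleton_one ?_
  convert hKo using 1
  ext x
  simp

/-- The group is a Lie group. -/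
theorem lie_main {X : Type} [TopologicalSpace X] [T2Space X]
    {G : Type} [Group G] [TopologicalSpace G] [IsTopologicalGroup G] [LocallyCompactSpace G]
    [MulAction G X] [ContinuousSMul G X] [FaithfulSMul G X]
    (R : Set X) (hdense : Dense R) (hconn : IsPreconnected R)
    (hR : ∀ x ∈ R, ∃ V ∈ 𝓝 (1 : G), Tame V x) : Pool.Agent.Y485.HS.IsLie G := by
  obtain ⟨hT, hN⟩ := nss_main R hdense hconn hR
  haveI := hT
  obtain ⟨E, i1, i2, i3, ⟨C⟩⟩ := Pool.Agent.Y328.HS.lga G hN
  letI := i1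
  letI := i2
  haveI := i3
  exact Pool.Agent.Y286.HS.lgb G E C

end Pool.Agent.H91.HS
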