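import Pool.Agent.H91.HS.Contact

/-! The local theorem in coordinates. -/

set_option autoImplicit false

open Set Filter Topology Metric Function MeasureTheory
open scoped RealInnerProductSpace

noncomputable section

namespace Pool.Agent.H91.HS

/-- Vectors with small mutual angles have no vanishing convex combination. -/
theorem no_comb {d : ℕ} (hd : 2 ≤ d) {V : Type} [NormedAddCommGroup V] [InnerProductSpace ℝ V]
    (v : Fin d → V) (hv : ∀ j, v j ≠ 0)
    (hang : ∀ i j, -(1 / ((d : ℝ) - 1)) * (‖v i‖ * ‖v j‖) < ⟪v i, v j⟫)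
    (w : Fin d → ℝ) (hw : ∀ j, 0 ≤ w j) (hw1 : ∑ j, w j = 1) : ∑ j, w j • v j ≠ 0 := by
  intro h0
  set b : Fin d → ℝ := fun j => w j * ‖v j‖ with hb
  have hb0 : ∀ j, 0 ≤ b j := fun j => mul_nonneg (hw j) (norm_nonneg _)
  have hd1 : (0 : ℝ) < (d : ℝ) - 1 := by
    have : (2 : ℝ) ≤ d := by exact_mod_cast hd
    linarith
  -- the square of the norm
  have e1 : (0 : ℝ) = ∑ i, ∑ j, w i * w j * ⟪v i, v j⟫ := by
    have h1 : ⟪∑ j, w j • v j, ∑ j, w j • v j⟫ = (0 : ℝ) := by rw [h0, inner_zero_left]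
    rw [← h1, sum_inner]
    refine Finset.sum_congr rfl fun i _ => ?_
    rw [inner_sum]
    refine Finset.sum_congr rfl fun j _ => ?_
    rw [real_inner_smul_left, real_inner_smul_right]
    ring
  have hpos : ∃ i, 0 < w i := by
    by_contra hcon
    push Not at hcon
    have : ∑ j, w j ≤ 0 := Finset.sum_nonpos fun i _ => hcon i
    linarith
  obtain ⟨i0, hi0⟩ := hpos
  -- compare terms
  have e2 : ∀ i j, w i * w j * ⟪v i, v j⟫ ≥
      (if i = j then b i * b j else -(1 / ((d : ℝ) - 1)) * (b i * b j)) := by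
    intro i j
    split_ifs with hij
    · subst hij
      rw [real_inner_self_eq_norm_sq]
      apply le_of_eq
      simp only [hb]
      ring
    · have h1 := mul_le_mul_of_nonneg_left (hang i j).le (mul_nonneg (hw i) (hw j))
      calc w i * w j * ⟪v i, v j⟫ ≥ w i * w j * (-(1 / ((d : ℝ) - 1)) * (‖v i‖ * ‖v j‖)) := h1
        _ = -(1 / ((d : ℝ) - 1)) * (b i * b j) := by simp only [hb]; ring
  -- the sum of the lower bounds
  have e3 : ∑ i, ∑ j, (if i = j then b i * b j else -(1 / ((d : ℝ) - 1)) * (b i * b j)) =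
      (1 + 1 / ((d : ℝ) - 1)) * ∑ i, b i ^ 2 - 1 / ((d : ℝ) - 1) * (∑ i, b i) ^ 2 := by
    have h1 : ∀ i j : Fin d, (if i = j then b i * b j else -(1 / ((d : ℝ) - 1)) * (b i * b j)) =
        (if i = j then (1 + 1 / ((d : ℝ) - 1)) * (b i * b j) else 0) -
          1 / ((d : ℝ) - 1) * (b i * b j) := by
      intro i j
      split_ifs <;> ring
    simp only [h1, Finset.sum_sub_distrib, Finset.sum_ite_eq, Finset.mem_univ, if_true]
    congr 1
    · rw [Finset.mul_sum]
      exact Finset.sum_congr rfl fun i _ => by ring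
    · rw [pow_two, Finset.sum_mul_sum, Finset.mul_sum]
      refine Finset.sum_congr rfl fun i _ => ?_
      rw [Finset.mul_sum]
  have e4 : (∑ i, b i) ^ 2 ≤ d * ∑ i, b i ^ 2 := by
    have := sq_sum_le_card_mul_sum_sq (s := (Finset.univ : Finset (Fin d))) (f := b)
    simpa using this
  have e5 : 0 ≤ (1 + 1 / ((d : ℝ) - 1)) * ∑ i, b i ^ 2 - 1 / ((d : ℝ) - 1) * (∑ i, b i) ^ 2 := by
    have h1 : 1 / ((d : ℝ) - 1) * (∑ i, b i) ^ 2 ≤ 1 / ((d : ℝ) - 1) * (d * ∑ i, b i ^ 2) :=
      mul_le_mul_of_nonneg_left e4 (by positivity)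
    have h2 : (1 + 1 / ((d : ℝ) - 1)) * ∑ i, b i ^ 2 = 1 / ((d : ℝ) - 1) * (d * ∑ i, b i ^ 2) := by
      field_simp
      ring
    linarith
  have e6 : ∑ i, ∑ j, (if i = j then b i * b j else -(1 / ((d : ℝ) - 1)) * (b i * b j)) ≤
      ∑ i, ∑ j, w i * w j * ⟪v i, v j⟫ :=
    Finset.sum_le_sum fun i _ => Finset.sum_le_sum fun j _ => e2 i j
  rw [e3] at e6
  -- equality forces strict inequality somewhere
  have hall : ∀ i j, w i * w j * ⟪v i, v j⟫ =
      (if i = j then b i * b j else -(1 / ((d : ℝ) - 1)) * (b i * b j)) := by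
    have h1 : ∑ i, ∑ j, (w i * w j * ⟪v i, v j⟫ -
        (if i = j then b i * b j else -(1 / ((d : ℝ) - 1)) * (b i * b j))) = 0 := by
      have h2 : ∑ i, ∑ j, (w i * w j * ⟪v i, v j⟫ -
          (if i = j then b i * b j else -(1 / ((d : ℝ) - 1)) * (b i * b j))) =
          ∑ i, ∑ j, w i * w j * ⟪v i, v j⟫ -
            ∑ i, ∑ j, (if i = j then b i * b j else -(1 / ((d : ℝ) - 1)) * (b i * b j)) := by
        simp only [Finset.sum_sub_distrib]
      rw [h2, e3]
      linarith
    intro i j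
    have h2 := (Finset.sum_eq_zero_iff_of_nonneg (fun i _ => Finset.sum_nonneg fun j _ =>
      sub_nonneg.2 (e2 i j))).1 h1 i (Finset.mem_univ _)
    have h3 := (Finset.sum_eq_zero_iff_of_nonneg (fun j _ => sub_nonneg.2 (e2 i j))).1 h2 j
      (Finset.mem_univ _)
    linarith
  -- there are two positive weights, or one; both are impossible
  by_cases hex : ∃ j, j ≠ i0 ∧ 0 < w j
  · obtain ⟨j, hj, hwj⟩ := hex
    have h1 := hall i0 j
    rw [if_neg (Ne.symm hj)] at h1
    have h2 := mul_lt_mul_of_pos_left (hang i0 j) (mul_pos hi0 hwj)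
    have h3 : w i0 * w j * (-(1 / ((d : ℝ) - 1)) * (‖v i0‖ * ‖v j‖)) =
        -(1 / ((d : ℝ) - 1)) * (b i0 * b j) := by simp only [hb]; ring
    linarith
  · push Not at hex
    have h1 : ∀ j, j ≠ i0 → w j = 0 := fun j hj => le_antisymm (hex j hj) (hw j)
    rw [Finset.sum_eq_single i0 (fun j _ hj => by rw [h1 j hj, zero_smul])
      (fun h => absurd (Finset.mem_univ _) h)] at h0
    rcases smul_eq_zero.1 h0 with h | h
    · exact hi0.ne' h
    · exact hv i0 h

/-- **The local theorem.** -/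
theorem loc {r : ℕ} {d : Fin r → ℕ} {K : Type} [Group K] [TopologicalSpace K]
    [IsTopologicalGroup K] [CompactSpace K]
    (a : K → (∀ i, EuclideanSpace ℝ (Fin (d i))) → ∀ i, EuclideanSpace ℝ (Fin (d i)))
    (p0 : ∀ i, EuclideanSpace ℝ (Fin (d i))) (ρ : ℝ) (hρ : 0 < ρ)
    (hcont : ContinuousOn (fun q : K × (∀ i, EuclideanSpace ℝ (Fin (d i))) => a q.1 q.2)
      (univ ×ˢ closedBall p0 (3 * ρ)))
    (hone : ∀ p ∈ closedBall p0 (3 * ρ), a 1 p = p)
    (hmul : ∀ h k, ∀ p ∈ closedBall p0 (3 * ρ), a (h * k) p = a h (a k p))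
    (hdisp : ∀ k, ∀ p ∈ closedBall p0 (3 * ρ), dist (a k p) p ≤ ρ / 4)
    (hflag : ∀ k, ∀ p ∈ closedBall p0 (3 * ρ), ∀ q ∈ closedBall p0 (3 * ρ), ∀ i,
      (∀ j ≤ i, p j = q j) → a k p i = a k q i)
    (hblock : ∀ i, d i = 1 ∨
      (∀ p ∈ closedBall p0 (3 * ρ), ∀ q ∈ closedBall p0 (3 * ρ), (∀ j < i, p j = q j) → p i ≠ q i →
        ∀ (h : Fin (d i) → K) (w : Fin (d i) → ℝ), (∀ k, 0 ≤ w k) → ∑ k, w k = 1 →
          ∑ k, w k • (a (h k) p i - a (h k) q i) ≠ 0) ∨
      (2 ≤ d i ∧ ∀ p ∈ closedBall p0 (3 * ρ), ∀ q ∈ closedBall p0 (3 * ρ), (∀ j < i, p j = q j) →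
        p i ≠ q i → ∀ k, -(1 / ((d i : ℝ) - 1)) * (‖a k p i - a k q i‖ * ‖p i - q i‖) <
          ⟪a k p i - a k q i, p i - q i⟫)) :
    ∀ p ∈ closedBall p0 ρ, ∀ k, a k p = p := by
  classical
  intro p hp k
  have hp3 : p ∈ closedBall p0 (3 * ρ) := closedBall_subset_closedBall (by linarith) hp
  suffices H : ∀ m : ℕ, ∀ i : Fin r, (i : ℕ) = m → ∀ k, a k p i = p i by
    funext i
    exact H i i rfl k
  clear k
  intro m
  induction m using Nat.strong_induction_on with
  | _ m IH =>
  intro i him k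
  have hind : ∀ j < i, ∀ k, a k p j = p j := fun j hj k => IH j (him ▸ hj) j rfl k
  by_contra hne
  have hd : 1 ≤ d i := by
    by_contra hd
    have hd0 : d i = 0 := by omega
    apply hne
    have : Subsingleton (EuclideanSpace ℝ (Fin (d i))) := by
      rw [hd0]
      infer_instance
    exact Subsingleton.elim _ _
  have hdist : ∀ (k : K) (q : ∀ i, EuclideanSpace ℝ (Fin (d i))), q ∈ closedBall p0 (3 * ρ) →
      ‖a k q i - q i‖ ≤ ρ / 4 := by
    intro k q hq
    rw [← dist_eq_norm]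
    exact (dist_le_pi_dist _ _ i).trans (hdisp k q hq)
  -- the unit vector
  set e : EuclideanSpace ℝ (Fin (d i)) := a k p i - p i with he
  have he0 : e ≠ 0 := sub_ne_zero.2 hne
  have hen : 0 < ‖e‖ := norm_pos_iff.2 he0
  set u : EuclideanSpace ℝ (Fin (d i)) := ‖e‖⁻¹ • e with hu
  have hun : ‖u‖ = 1 := by rw [hu, norm_smul, norm_inv, norm_norm, inv_mul_cancel₀ hen.ne']
  have heu : e = ‖e‖ • u := by rw [hu, smul_smul, mul_inv_cancel₀ hen.ne', one_smul]
  -- the moving point
  set z : ℝ → ∀ i, EuclideanSpace ℝ (Fin (d i)) := fun t => update (a k p) i (a k p i + t • u) with hz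
  have hzi : ∀ t, z t i - p i = (‖e‖ + t) • u := by
    intro t
    simp only [hz, update_self]
    rw [add_smul, ← heu, he]
    abel
  have hzj : ∀ t, ∀ j < i, z t j = p j := by
    intro t j hj
    simp only [hz]
    rw [update_of_ne hj.ne]
    exact hind j hj k
  have hz0 : z 0 = a k p := by simp [hz]
  have hakp : dist (a k p) p0 ≤ ρ + ρ / 4 := by
    have h1 := dist_triangle (a k p) p p0
    have h2 := hdisp k p hp3
    have h3 : dist p p0 ≤ ρ := hp
    linarith
  have hzb : ∀ t ∈ Icc 0 ρ, dist (z t) p0 ≤ 2 * ρ + ρ / 4 := by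
    intro t ht
    have h1 : dist (z t) (a k p) ≤ ρ := by
      rw [dist_pi_le_iff hρ.le]
      intro j
      by_cases hj : j = i
      · subst hj
        simp only [hz, update_self]
        rw [dist_eq_norm, add_sub_cancel_left, norm_smul, hun, mul_one, Real.norm_eq_abs,
          abs_of_nonneg ht.1]
        exact ht.2
      · simp only [hz]
        rw [update_of_ne hj, dist_self]
        exact hρ.le
    have h2 := dist_triangle (z t) (a k p) p0
    linarith
  have hz3 : ∀ t ∈ Icc 0 ρ, z t ∈ closedBall p0 (3 * ρ) := by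
    intro t ht
    have := hzb t ht
    rw [mem_closedBall]
    linarith
  have hakp3 : a k p ∈ closedBall p0 (3 * ρ) := by
    rw [mem_closedBall]
    linarith
  have hzc : Continuous z := by
    simp only [hz]
    exact continuous_const.update i (by fun_prop)
  -- continuity in the group element
  have hca : ∀ q ∈ closedBall p0 (3 * ρ), Continuous fun h : K => a h q i := by
    intro q hq
    have h1 : Continuous fun h : K => a h q := by
      rw [← continuousOn_univ]
      exact hcont.comp (f := fun h : K => (h, q)) (by fun_prop) fun h _ => ⟨mem_univ _, hq⟩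
    exact (continuous_apply i).comp h1
  set S : ℝ → K → EuclideanSpace ℝ (Fin (d i)) := fun t h => a h p i - a h (z t) i with hS
  have hSc : ContinuousOn (fun q : ℝ × K => S q.1 q.2) (Icc 0 ρ ×ˢ univ) := by
    have h1 : ContinuousOn (fun q : ℝ × K => a q.2 p i) (Icc 0 ρ ×ˢ univ) :=
      ((hca p hp3).comp continuous_snd).continuousOn
    have h2 : ContinuousOn (fun q : ℝ × K => a q.2 (z q.1)) (Icc 0 ρ ×ˢ univ) := by
      refine hcont.comp (f := fun q : ℝ × K => (q.2, z q.1)) ?_ fun q hq =>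
        ⟨mem_univ _, hz3 _ hq.1⟩
      exact (continuous_snd.prodMk (hzc.comp continuous_fst)).continuousOn
    exact h1.sub ((continuous_apply i).comp_continuousOn h2)
  -- at the beginning the mean is zero
  have hbad : ¬ Good S 0 := by
    rintro ⟨v, hv⟩
    let _ : MeasurableSpace K := borel K
    have : BorelSpace K := ⟨rfl⟩
    obtain ⟨μ, hμ1, hμ2, hμ3⟩ : ∃ μ : Measure K, μ.IsMulLeftInvariant ∧ IsProbabilityMeasure μ ∧
        μ.IsOpenPosMeasure := by
      refine ⟨Measure.haarMeasure ⊤, inferInstance, ⟨?_⟩, inferInstance⟩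
      have := Measure.haarMeasure_self (G := K) (K₀ := ⊤)
      simpa using this
    have hcf : Continuous fun h : K => ⟪a h⁻¹ p i, v⟫ := by
      have := (hca p hp3).comp (continuous_inv (G := K))
      exact this.inner continuous_const
    have hcg : Continuous fun h : K => ⟪a (h⁻¹ * k) p i, v⟫ := by
      have h1 : Continuous fun h : K => h⁻¹ * k := by fun_prop
      exact ((hca p hp3).comp h1).inner continuous_const
    have hint : ∀ f : K → ℝ, Continuous f → Integrable f μ := fun f hf =>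
      hf.integrable_of_hasCompactSupport (HasCompactSupport.of_compactSpace f)
    have e1 : ∫ h, ⟪a (h⁻¹ * k) p i, v⟫ ∂μ = ∫ h, ⟪a h⁻¹ p i, v⟫ ∂μ := by
      have h1 := integral_mul_left_eq_self (μ := μ) (fun h : K => ⟪a h⁻¹ p i, v⟫) k⁻¹
      rw [← h1]
      refine integral_congr_ae (Eventually.of_forall fun h => ?_)
      simp [mul_inv_rev]
    have e2 : ∀ h : K, 0 < ⟪a h⁻¹ p i, v⟫ - ⟪a (h⁻¹ * k) p i, v⟫ := by
      intro h
      have h1 := hv h⁻¹
      simp only [hS] at h1
      rw [hz0, ← hmul _ _ p hp3, inner_sub_left] at h1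
      exact h1
    have e3 : 0 < ∫ h, (⟪a h⁻¹ p i, v⟫ - ⟪a (h⁻¹ * k) p i, v⟫) ∂μ := by
      refine (hcf.sub hcg).integral_pos_of_hasCompactSupport_nonneg_nonzero
        (HasCompactSupport.of_compactSpace _) (fun h => (e2 h).le) (x := 1) (e2 1).ne'
    rw [integral_sub (hint _ hcf) (hint _ hcg), e1, sub_self] at e3
    exact lt_irrefl _ e3
  -- at the end the points are far apart
  have hgood : Good S ρ := by
    refine ⟨-u, fun h => ?_⟩
    have hzρ := hz3 ρ ⟨hρ.le, le_rfl⟩
    have e1 : S ρ h = (a h p i - p i) - (a h (z ρ) i - z ρ i) - (z ρ i - p i) := by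
      simp only [hS]
      abel
    have e2 : |⟪a h p i - p i, u⟫| ≤ ρ / 4 := by
      refine (abs_real_inner_le_norm _ _).trans ?_
      rw [hun, mul_one]
      exact hdist h p hp3
    have e3 : |⟪a h (z ρ) i - z ρ i, u⟫| ≤ ρ / 4 := by
      refine (abs_real_inner_le_norm _ _).trans ?_
      rw [hun, mul_one]
      exact hdist h _ hzρ
    have e4 : ⟪z ρ i - p i, u⟫ = ‖e‖ + ρ := by
      rw [hzi, real_inner_smul_left, real_inner_self_eq_norm_sq, hun]
      ring
    rw [e1, inner_neg_right, inner_sub_left, inner_sub_left, e4]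
    have h1 := (abs_le.1 e2).2
    have h2 := (abs_le.1 e3).1
    linarith
  obtain ⟨t, ht, h, w, hw, hw1, hsum⟩ := contact hd S ρ hρ.le hSc hbad hgood
  have hzt := hz3 t ht
  have hne' : p i ≠ z t i := by
    intro hcon
    have h1 := hzi t
    rw [← hcon, sub_self] at h1
    have h2 := congrArg norm h1
    rw [norm_zero, norm_smul, hun, mul_one, Real.norm_eq_abs] at h2
    have h3 := abs_eq_zero.1 h2.symm
    have h4 := ht.1
    linarith
  have heq : ∀ j < i, p j = z t j := fun j hj => (hzj t j hj).symm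
  have hmem : ∀ (h : K) (q : ∀ i, EuclideanSpace ℝ (Fin (d i))), dist q p0 ≤ 2 * ρ + ρ / 4 →
      a h q ∈ closedBall p0 (3 * ρ) := by
    intro h q hq
    have h1 : q ∈ closedBall p0 (3 * ρ) := by
      rw [mem_closedBall]
      linarith
    have h2 := dist_triangle (a h q) q p0
    have h3 := hdisp h q h1
    rw [mem_closedBall]
    linarith
  have hp2 : dist p p0 ≤ 2 * ρ + ρ / 4 := by
    have h3 : dist p p0 ≤ ρ := hp
    linarith
  -- images agree in the first blocks, and differ in block `i`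
  have hfst : ∀ h : K, ∀ j < i, a h p j = a h (z t) j := fun h j hj =>
    hflag h p hp3 (z t) hzt j fun l hl => heq l (lt_of_le_of_lt hl hj)
  have hdiff : ∀ h : K, a h p i ≠ a h (z t) i := by
    intro h hcon
    apply hne'
    have h1 := hflag h⁻¹ (a h p) (hmem h p hp2) (a h (z t)) (hmem h (z t) (hzb t ht)) i (by
      intro l hl
      rcases hl.lt_or_eq with h2 | h2
      · exact hfst h l h2
      · subst h2
        exact hcon)
    rw [← hmul _ _ p hp3, ← hmul _ _ _ hzt, inv_mul_cancel, hone p hp3, hone _ hzt] at h1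
    exact h1
  rcases hblock i with h1 | h1 | ⟨hd2, h1⟩
  · -- lines
    have hu1 : Unique (Fin (d i)) := by
      rw [h1]
      infer_instance
    rw [Fintype.sum_unique] at hw1 hsum
    rw [hw1, one_smul] at hsum
    exact hdiff _ (sub_eq_zero.1 hsum)
  · exact h1 p hp3 (z t) hzt heq hne' h w hw hw1 hsum
  · refine no_comb hd2 (fun j => S t (h j)) (fun j => sub_ne_zero.2 (hdiff (h j))) ?_ w hw hw1 hsum
    intro j l
    have h2 := h1 (a (h l) p) (hmem _ p hp2) (a (h l) (z t)) (hmem _ _ (hzb t ht))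
      (hfst (h l)) (hdiff (h l)) (h j * (h l)⁻¹)
    rw [← hmul _ _ p hp3, ← hmul _ _ _ hzt, inv_mul_cancel_right] at h2
    exact h2

end Pool.Agent.H91.HS
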